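import Pool.Agent.N556.CQ.Stm

/-!
Project CQ, part CPTA: lower semicontinuity of the area of convex sets.
-/

set_option autoImplicit false

namespace Pool.Agent.N617.CQ

open MeasureTheory Set Pool.Agent.N556.CQ Filter Topology

/-- the homothetic copy of `K` lies in `L` -/
theorem sub_aux (K L : Set P) (hx : Convex ℝ K) (p : P) (r t : ℝ) (hr : 0 < r) (ht : 0 < t)
    (ht1 : t < 1) (hp : Metric.closedBall p r ⊆ K) (hL : IsCompact L) (hLx : Convex ℝ L)
    (h : K ⊆ Metric.cthickening (t * r / 2) L) : AffineMap.homothety p (1 - t) '' K ⊆ L := by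
  rintro _ ⟨k, hk, rfl⟩
  obtain ⟨x, hxd⟩ : ∃ x : P, x = AffineMap.homothety p (1 - t) k := ⟨_, rfl⟩
  rw [← hxd]
  have hxe : x = (1 - t) • k + t • p := by
    rw [hxd, AffineMap.homothety_apply]
    simp only [vsub_eq_sub, vadd_eq_add, smul_sub]
    module
  by_contra hxL
  obtain ⟨f, u, hf1, hf2⟩ := geometric_hahn_banach_closed_point hLx hL.isClosed hxL
  have hpK : p ∈ K := hp (Metric.mem_closedBall_self hr.le)
  have hLne : L.Nonempty := by
    rw [nonempty_iff_ne_empty]
    rintro rfl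
    have := h hpK
    rw [Metric.cthickening_empty] at this
    exact this
  obtain ⟨l0, hl0⟩ := hLne
  have hf0 : 0 < ‖f‖ := by
    rw [norm_pos_iff]
    rintro rfl
    have h1 := hf1 l0 hl0
    simp at h1 hf2
    linarith
  obtain ⟨z, hz1, hz2⟩ := f.exists_lt_apply_of_lt_opNorm (r := ‖f‖ / 2) (by linarith)
  obtain ⟨z', hz'1, hz'2⟩ : ∃ z' : P, ‖z'‖ ≤ 1 ∧ ‖f‖ / 2 < f z' := by
    rcases le_total 0 (f z) with h0 | h0
    · refine ⟨z, hz1.le, ?_⟩
      rwa [Real.norm_of_nonneg h0] at hz2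
    · refine ⟨-z, by rw [norm_neg]; exact hz1.le, ?_⟩
      rw [Real.norm_of_nonpos h0] at hz2
      rwa [map_neg]
  have hy : x + (t * r) • z' ∈ K := by
    have h1 : p + r • z' ∈ K := by
      apply hp
      rw [Metric.mem_closedBall, dist_eq_norm, add_sub_cancel_left, norm_smul,
        Real.norm_of_nonneg hr.le]
      nlinarith
    have h2 := hx hk h1 (by linarith : 0 ≤ 1 - t) ht.le (by ring)
    have h3 : x + (t * r) • z' = (1 - t) • k + t • (p + r • z') := by
      rw [hxe]
      module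
    rw [h3]
    exact h2
  have hyL := h hy
  rw [hL.cthickening_eq_biUnion_closedBall (by positivity)] at hyL
  simp only [mem_iUnion, exists_prop] at hyL
  obtain ⟨l, hl, hyl⟩ := hyL
  rw [Metric.mem_closedBall, dist_eq_norm] at hyl
  have h4 : f (x + (t * r) • z' - l) ≤ ‖f‖ * (t * r / 2) :=
    (le_abs_self _).trans ((f.le_opNorm _).trans (mul_le_mul_of_nonneg_left hyl hf0.le))
  rw [map_sub, map_add, map_smul, smul_eq_mul] at h4
  have h5 := hf1 l hl
  have h6 : t * r * (‖f‖ / 2) < t * r * f z' := mul_lt_mul_of_pos_left hz'2 (by positivity)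
  nlinarith

theorem cpta (K : Set P) (hc : IsCompact K) (hx : Convex ℝ K) (h0 : 0 < volume K) (A : ENNReal)
    (hA : A < volume K) : ∃ e : ℝ, 0 < e ∧ ∀ L : Set P, IsCompact L → Convex ℝ L →
      K ⊆ Metric.cthickening e L → A ≤ volume L := by
  have hint : (interior K).Nonempty := by
    rw [nonempty_iff_ne_empty]
    intro hemp
    have h1 : K ⊆ frontier K := by
      rw [frontier, hemp, diff_empty]
      exact subset_closure
    have h2 := hx.addHaar_frontier volume
    exact absurd (measure_mono_null h1 h2) h0.ne'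
  obtain ⟨p, hp⟩ := hint
  obtain ⟨r, hr, hpr⟩ := Metric.nhds_basis_closedBall.mem_iff.1 (mem_interior_iff_mem_nhds.1 hp)
  have hvol : volume K ≠ ⊤ := hc.measure_lt_top.ne
  -- the parameter
  have hlim : Tendsto (fun t : ℝ => ENNReal.ofReal (|(1 - t) ^ 2|) * volume K) (𝓝[>] 0)
      (𝓝 (volume K)) := by
    have h1 : Tendsto (fun t : ℝ => ENNReal.ofReal (|(1 - t) ^ 2|)) (𝓝[>] 0)
        (𝓝 (ENNReal.ofReal (|(1 - 0) ^ 2|))) := by
      have : Continuous fun t : ℝ => ENNReal.ofReal (|(1 - t) ^ 2|) :=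
        ENNReal.continuous_ofReal.comp (by fun_prop)
      exact (this.tendsto 0).mono_left nhdsWithin_le_nhds
    have h2 := ENNReal.Tendsto.mul_const (b := volume K) h1 (Or.inr hvol)
    simpa using h2
  have hev : ∀ᶠ t : ℝ in 𝓝[>] 0, A < ENNReal.ofReal (|(1 - t) ^ 2|) * volume K :=
    hlim.eventually (lt_mem_nhds hA)
  have hev1 : ∀ᶠ t : ℝ in 𝓝[>] 0, t ∈ Ioo (0 : ℝ) 1 := Ioo_mem_nhdsGT one_pos
  obtain ⟨t, ht1, ht2, ht3⟩ := (hev.and hev1).exists
  refine ⟨t * r / 2, by positivity, ?_⟩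
  intro L hL hLx hKL
  have h1 := sub_aux K L hx p r t hr ht2 ht3 hpr hL hLx hKL
  have h2 : volume (AffineMap.homothety p (1 - t) '' K) =
      ENNReal.ofReal (|(1 - t) ^ 2|) * volume K := by
    have := Measure.addHaar_image_homothety (volume : Measure P) p (1 - t) K
    have hd : Module.finrank ℝ P = 2 := by
      simp
    rw [hd] at this
    exact this
  calc A ≤ volume (AffineMap.homothety p (1 - t) '' K) := by rw [h2]; exact ht1.le
    _ ≤ volume L := measure_mono h1

end Pool.Agent.N617.CQ
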